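import Pool.Agent.Y197.LR.Stm

/-!
Project LR: decomposition at the explored crossing (helper332).
-/

set_option autoImplicit false

namespace Pool.Agent.Y332.LR.DEC

open H974 Finset Pool.Agent.Y197.LR

theorem ww_col {n : ℤ} {F : Finset Edg} {v : Vtx} (h : WW (KK n F) v) : v.1 ≤ n := by
  obtain ⟨⟨x, y, b⟩, he, hc⟩ := h
  have hT := KK_subset n F he
  cases b
  · rw [mem_TBE_false] at hT
    simp only [src_mk, tgt_false] at hc
    rcases hc with hc | hc <;> rw [← hc] <;> simp only <;> omega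
  · rw [mem_TBE_true] at hT
    simp only [src_mk, tgt_true] at hc
    rcases hc with hc | hc <;> rw [← hc] <;> simp only <;> omega

/-- All vertices of the strip in the columns `≥ n + 1` are `Far`. -/
theorem far_right {n : ℤ} {F : Finset Edg} {v : Vtx} (h1 : n + 1 ≤ v.1) (h2 : 0 ≤ v.2)
    (h3 : v.2 ≤ n) : Far n (KK n F) v := by
  refine ⟨(n + 1, v.2), ⟨rfl, h2, h3⟩, ?_⟩
  have key : ∀ k : ℕ, Reach {e | InS n e ∧ ¬ WW (KK n F) (src e) ∧ ¬ WW (KK n F) (tgt e)}
      (n + 1, v.2) (n + 1 + (k : ℤ), v.2) := by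
    intro k
    induction k with
    | zero => simpa using Reach.refl _ _
    | succ k ih =>
      refine ih.trans (Adj.reach ⟨(n + 1 + (k : ℤ), v.2, true), ⟨⟨h2, ?_⟩, ?_, ?_⟩,
        Or.inl ⟨by simp, ?_⟩⟩)
      · simpa using h3
      · intro hw
        have := ww_col hw
        simp only [src_mk] at this
        omega
      · intro hw
        have := ww_col hw
        simp only [tgt_true] at this
        omega
      · simp only [tgt_true, Prod.mk.injEq, and_true]
        push_cast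
        ring
  obtain ⟨k, hk⟩ : ∃ k : ℕ, v.1 = n + 1 + (k : ℤ) := ⟨(v.1 - (n + 1)).toNat, by omega⟩
  have := key k
  rw [← hk] at this
  exact this

/-- `Far` vertices are vertices of the strip outside the explored set, with column at least `1`. -/
theorem far_prop {n : ℤ} (hn : 0 < n) {F : Finset Edg} {v : Vtx} (h : Far n (KK n F) v) :
    ¬ WW (KK n F) v ∧ 1 ≤ v.1 ∧ 0 ≤ v.2 ∧ v.2 ≤ n := by
  obtain ⟨u, ⟨hu1, hu2, hu3⟩, hr⟩ := h
  induction hr with
  | refl =>
    refine ⟨fun hw => ?_, by omega, hu2, hu3⟩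
    have := ww_col hw
    omega
  | @tail w w' _ hs ih =>
    obtain ⟨ih1, ih2, ih3, ih4⟩ := ih
    obtain ⟨⟨x, y, b⟩, ⟨⟨hi1, hi2⟩, he1, he2⟩, hc⟩ := hs
    have hW : ¬ WW (KK n F) w' := by
      rcases hc with ⟨-, h4⟩ | ⟨h3, -⟩
      · rw [← h4]; exact he2
      · rw [← h3]; exact he1
    have hpos : 0 ≤ w'.1 ∧ 0 ≤ w'.2 ∧ w'.2 ≤ n := by
      cases b
      · simp only [src_mk, tgt_false] at hc hi1 hi2
        rcases hc with ⟨h3, h4⟩ | ⟨h3, h4⟩
        · rw [← h3] at ih2 ih3 ih4; rw [← h4]; simp only at ih2 ih3 ih4 ⊢; omega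
        · rw [← h4] at ih2 ih3 ih4; rw [← h3]; simp only at ih2 ih3 ih4 ⊢; omega
      · simp only [src_mk, tgt_true] at hc hi1 hi2
        rcases hc with ⟨h3, h4⟩ | ⟨h3, h4⟩
        · rw [← h3] at ih2 ih3 ih4; rw [← h4]; simp only at ih2 ih3 ih4 ⊢; omega
        · rw [← h4] at ih2 ih3 ih4; rw [← h3]; simp only at ih2 ih3 ih4 ⊢; omega
    refine ⟨hW, ?_, hpos.2⟩
    by_contra hlt
    have h0 : w'.1 = 0 := by omega
    apply hW
    have := KK_col hn F w'.2 hpos.2.1 hpos.2.2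
    rw [← h0] at this
    exact this

theorem far_step {n : ℤ} (hn : 0 < n) {F : Finset Edg} {u w : Vtx} (hu : Far n (KK n F) u)
    (hs : Adj {e | InS n e} u w) (hw : ¬ Far n (KK n F) w) : w ∈ Bd n (KK n F) := by
  refine ⟨?_, u, hu, hs⟩
  by_contra hW
  apply hw
  have hu' := (far_prop hn hu).1
  obtain ⟨u0, h0, hr⟩ := hu
  refine ⟨u0, h0, hr.trans ?_⟩
  obtain ⟨e, he, hc⟩ := hs
  refine Adj.reach ⟨e, ⟨he, ?_⟩, hc⟩
  rcases hc with ⟨h3, h4⟩ | ⟨h3, h4⟩
  · rw [h3, h4]; exact ⟨hu', hW⟩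
  · rw [h3, h4]; exact ⟨hW, hu'⟩

open Classical in
theorem main (h : S_TOP) : S_DEC := by
  intro n F hn hg hF S T hS hT
  set K := KK n F with hK
  have hsub : ∀ u w, Adj (↑F : Set Edg) u w → Adj {e | InS n e} u w := fun u w h => h.mono hF
  constructor
  · rintro ⟨s, hs, t, ht, hr⟩
    have hsF : Far n K s := far_right (hS s hs).1 (hS s hs).2.1 (hS s hs).2.2
    have htF : ¬ Far n K t := fun hf => by
      have := (far_prop hn hf).2.1
      have := (hT t ht).1
      omega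
    constructor
    · obtain ⟨v', w', h1, h2, h3, h4⟩ := first_hit (T := fun v => ¬ Far n K v) hr
        (not_not.mpr hsF) htF
      rw [not_not] at h2
      refine ⟨s, hs, w', far_step hn h2 (hsub _ _ h3) h4, (h1.mono ?_).trans ?_⟩
      · rintro e ⟨he1, he2, -⟩
        rw [Finset.coe_filter]
        exact ⟨he1, Or.inl (not_not.mp he2)⟩
      · obtain ⟨e, he, hc⟩ := h3
        refine Adj.reach ⟨e, ?_, hc⟩
        rw [Finset.coe_filter]
        refine ⟨he, ?_⟩
        rcases hc with ⟨h5, -⟩ | ⟨-, h5⟩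
        · left; rw [h5]; exact h2
        · right; rw [h5]; exact h2
    · obtain ⟨v', w', h1, h2, h3, h4⟩ := first_hit (T := Far n K) hr.symm htF hsF
      refine ⟨v', far_step hn h4 (hsub _ _ h3.symm) h2, t, ht, (h1.mono ?_).symm⟩
      rintro e ⟨he1, he2⟩
      rw [Finset.coe_filter]
      refine ⟨he1, ?_⟩
      rintro (h5 | h5)
      · exact he2.1 h5
      · exact he2.2 h5
  · rintro ⟨⟨s, hs, w1, hw1, hr1⟩, w2, hw2, t, ht, hr2⟩
    refine ⟨s, hs, t, ht, (hr1.mono ?_).trans (((h n F hn hg w1 hw1 w2 hw2).mono ?_).trans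
      (hr2.mono ?_))⟩
    · exact Finset.coe_subset.mpr (Finset.filter_subset _ _)
    · exact Finset.coe_subset.mpr Finset.inter_subset_left
    · exact Finset.coe_subset.mpr (Finset.filter_subset _ _)

end Pool.Agent.Y332.LR.DEC
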